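import Pool.Agent.Helper18.SG.Goals

/-!
# Project SG, packet G10
-/

set_option autoImplicit false

namespace Pool.Agent.Helper67.SG.G10

open Finset Pool.Agent.Helper18.SG

/-- splitting of the rest -/
theorem split (y D c1 c2 : ℕ) (h1 : 1 ≤ c1) (h2 : 1 ≤ c2) (h21 : c2 ≤ c1) (hD : D + 2 ≤ c1 + c2)
    (hD1 : 1 ≤ y → c1 ≤ D + 1) :
    ∃ u1 u2, u1 + u2 = D ∧ u1 + 1 ≤ c1 ∧ u2 + 1 ≤ c2 ∧ (1 ≤ y → c1 ≤ 2 * u1 + 2) ∧
      (1 ≤ y → c2 ≤ 2 * u2 + 2) := by
  rcases Nat.eq_zero_or_pos y with rfl | hy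
  · refine ⟨min D (c1 - 1), D - min D (c1 - 1), ?_, ?_, ?_, ?_, ?_⟩
    · omega
    · omega
    · omega
    · intro h; omega
    · intro h; omega
  · have hc := hD1 hy
    refine ⟨D - (c2 - 1 - (c1 + c2 - 2 - D) / 2), c2 - 1 - (c1 + c2 - 2 - D) / 2,
      ?_, ?_, ?_, ?_, ?_⟩
    · omega
    · omega
    · omega
    · intro _; omega
    · intro _; omega

variable {M S R N : ℕ} {ν ℓ : ℕ → ℕ} {y a : ℕ} {s z : ℕ → ℕ}

/-- The states with `i` new points are `Ok`. -/
theorem okNew (hG9 : GoalG9) (I : Inv M S R N ν ℓ y a s z) (hyR : y + 2 < R)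
    {u1 u2 : ℕ} (hu : Lo R N ν s z y + u1 + u2 = ℓ y)
    (hu1 : u1 + 1 ≤ min (ν a) (R - 1 - y)) (hu2 : u2 + 1 ≤ min (ν (a + 1)) (R - 1 - y))
    {i : ℕ} (hi2 : 2 ≤ i) (hiN : a + i ≤ N)
    (hle : Lo R N ν s z (y + 1) + ∑ j ∈ range i, min (ν (a + j)) (R - 2 - y) ≤ ℓ (y + 1)) :
    Ok R N ν ℓ (y + 1) (a + i) (ns y a i s) (nz R y a u1 u2 ν z) := by
  obtain ⟨e1, e2, e3⟩ := hG9 R N ν y a i u1 u2 s z hyR I.un hi2 hiN hu1 hu2
  refine ⟨hiN, ?_, ?_, ?_, ?_⟩
  · intro c hc
    have h := I.un c (by omega)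
    have hs : ns y a i s c = s c := by
      unfold ns; rw [if_neg (by omega)]
    have hz : nz R y a u1 u2 ν z c = z c := by
      unfold nz; rw [if_neg (by omega), if_neg (by omega)]
    rw [hs, hz]; exact h
  · intro c hc
    by_cases hca : c < a
    · have hs : ns y a i s c = s c := by
        unfold ns; rw [if_neg (by omega)]
      have hz : nz R y a u1 u2 ν z c = z c := by
        unfold nz; rw [if_neg (by omega), if_neg (by omega)]
      rw [hs, hz]
      obtain ⟨h1, h2, h3, h4⟩ := I.st c hca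
      exact ⟨by omega, h2, h3, h4⟩
    · have hs : ns y a i s c = y + 1 := by
        unfold ns; rw [if_pos (by omega)]
      rw [hs]
      by_cases h1 : c = a
      · have hz : nz R y a u1 u2 ν z c = y + 1 + min (ν a) (R - 1 - y) - u1 := by
          unfold nz; rw [if_pos h1]
        rw [hz]
        refine ⟨le_rfl, by omega, by omega, by omega⟩
      · by_cases h2 : c = a + 1
        · have hz : nz R y a u1 u2 ν z c = y + 1 + min (ν (a + 1)) (R - 1 - y) - u2 := by
            unfold nz; rw [if_neg h1, if_pos h2]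
          rw [hz]
          refine ⟨le_rfl, by omega, by omega, by omega⟩
        · have hz : nz R y a u1 u2 ν z c = z c := by
            unfold nz; rw [if_neg h1, if_neg h2]
          rw [hz, (I.un c (by omega)).2]
          refine ⟨le_rfl, by omega, le_rfl, fun _ => rfl⟩
  · intro t ht
    rcases Nat.lt_succ_iff_lt_or_eq.1 ht with h | h
    · rw [e1 t h]; exact I.ex t h
    · rw [h, e2]; exact hu
  · rw [e3]; exact hle

theorem goalG10 (hG1 : GoalG1) (hG2 : GoalG2) (hG4 : GoalG4) (hG9 : GoalG9) : GoalG10 := by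
  intro M S R N ν ℓ y a s z hH I hyR hG8
  -- the numbers `g i`
  set g : ℕ → ℕ := fun i => min (ν (a + i)) (R - 2 - y) with hg
  have hg1 : ∀ i, 1 ≤ g i := fun i => by
    have := hH.ν1 (a + i)
    simp only [hg]; omega
  have hganti : ∀ i j, i ≤ j → g j ≤ g i := fun i j hij => by
    have := hH.anti (show a + i ≤ a + j by omega)
    simp only [hg]; omega
  have hgM : ∀ i, g i ≤ M := fun i => by
    have := hH.νM (a + i)
    simp only [hg]; omega
  have hg0 : g 0 = min (ν a) (R - 2 - y) := by simp [hg]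
  rw [← hg0] at hG8
  -- the number of new points
  have hex : ∃ n, ℓ (y + 1) + 2 ≤ Lo R N ν s z (y + 1) + ∑ i ∈ range n, g i + g n + g (n + 1) := by
    refine ⟨ℓ (y + 1), ?_⟩
    have h1 : ℓ (y + 1) ≤ ∑ i ∈ range (ℓ (y + 1)), g i := by
      calc ℓ (y + 1) = ∑ i ∈ range (ℓ (y + 1)), 1 := by simp
        _ ≤ _ := sum_le_sum fun i _ => hg1 i
    have h2 := hg1 (ℓ (y + 1))
    have h3 := hg1 (ℓ (y + 1) + 1)
    omega
  obtain ⟨n, hn, hmin⟩ : ∃ n, (ℓ (y + 1) + 2 ≤
      Lo R N ν s z (y + 1) + ∑ i ∈ range n, g i + g n + g (n + 1)) ∧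
      ∀ m < n, ¬ (ℓ (y + 1) + 2 ≤
        Lo R N ν s z (y + 1) + ∑ i ∈ range m, g i + g m + g (m + 1)) := by
    classical
    exact ⟨Nat.find hex, Nat.find_spec hex, fun m hm => Nat.find_min hex hm⟩
  have hn2 : 2 ≤ n := by
    by_contra hlt
    have h01 := hganti 0 1 (by omega)
    have h02 := hganti 0 2 (by omega)
    have h00 := hg1 0
    have : n = 0 ∨ n = 1 := by omega
    rcases this with rfl | rfl
    · simp only [range_zero, sum_empty, zero_add, add_zero] at hn
      omega
    · simp only [sum_range_one, Nat.reduceAdd] at hn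
      omega
  have hD1 : Lo R N ν s z (y + 1) + ∑ i ∈ range n, g i + g n ≤ ℓ (y + 1) + 1 := by
    have h := hmin (n - 1) (by omega)
    have e : n - 1 + 1 = n := by omega
    have e2 : ∑ i ∈ range n, g i = ∑ i ∈ range (n - 1), g i + g (n - 1) := by
      rw [← sum_range_succ, e]
    rw [e] at h
    rw [e2]
    omega
  -- the rest of the row `y`
  have hle := I.le
  have hc1 : 1 ≤ min (ν a) (R - 1 - y) := by
    have := hH.ν1 a; omega
  have hc2 : 1 ≤ min (ν (a + 1)) (R - 1 - y) := by
    have := hH.ν1 (a + 1); omega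
  have hc21 : min (ν (a + 1)) (R - 1 - y) ≤ min (ν a) (R - 1 - y) := by
    have := hH.anti (show a ≤ a + 1 by omega); omega
  have hD2 := I.D2
  have hD1' := I.D1
  obtain ⟨u1, u2, hu, hu1, hu2, hw1, hw2⟩ := split y (ℓ y - Lo R N ν s z y)
    (min (ν a) (R - 1 - y)) (min (ν (a + 1)) (R - 1 - y)) hc1 hc2 hc21 (by omega)
    (fun h => by have := hD1' h; omega)
  have hu' : Lo R N ν s z y + u1 + u2 = ℓ y := by omega
  -- the states with `i` new points
  have hOk : ∀ i, 2 ≤ i → i ≤ n → a + i ≤ N →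
      Ok R N ν ℓ (y + 1) (a + i) (ns y a i s) (nz R y a u1 u2 ν z) := by
    intro i hi2 hin hiN
    refine okNew hG9 I hyR hu' hu1 hu2 hi2 hiN ?_
    have h1 : ∑ j ∈ range i, min (ν (a + j)) (R - 2 - y) ≤ ∑ j ∈ range n, g j :=
      sum_le_sum_of_subset (range_mono hin)
    have h2 := hg1 n
    omega
  have hN3 : ∀ i, 2 ≤ i → i ≤ n → a + i ≤ N → a + i + 3 ≤ N := fun i hi2 hin hiN =>
    hG2 M S R N ν ℓ (y + 1) (a + i) _ _ hG1 hH (hOk i hi2 hin hiN) (by omega)
  have ha3 : a + 3 ≤ N := hG2 M S R N ν ℓ y a s z hG1 hH I.toOk (by omega)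
  have hnN : a + n ≤ N := by
    by_contra hcon
    have := hN3 (N - a) (by omega) (by omega) (by omega)
    omega
  have hnN3 := hN3 n hn2 le_rfl hnN
  have ok := hOk n hn2 le_rfl hnN
  have e3 := (hG9 R N ν y a n u1 u2 s z hyR I.un hn2 hnN hu1 hu2).2.2
  have e3' : Lo R N ν (ns y a n s) (nz R y a u1 u2 ν z) (y + 1) =
      Lo R N ν s z (y + 1) + ∑ i ∈ range n, g i := e3
  have hsold : ∀ c < a, ns y a n s c = s c := fun c hc => by
    unfold ns; rw [if_neg (by omega)]
  have hzold : ∀ c < a, nz R y a u1 u2 ν z c = z c := fun c hc => by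
    unfold nz; rw [if_neg (by omega), if_neg (by omega)]
  have hsnew : ∀ c, a ≤ c → c < a + n → ns y a n s c = y + 1 := fun c h1 h2 => by
    unfold ns; rw [if_pos ⟨h1, h2⟩]
  have hza : nz R y a u1 u2 ν z a = y + 1 + min (ν a) (R - 1 - y) - u1 := by
    unfold nz; rw [if_pos rfl]
  have hza1 : nz R y a u1 u2 ν z (a + 1) = y + 1 + min (ν (a + 1)) (R - 1 - y) - u2 := by
    unfold nz; rw [if_neg (by omega), if_pos rfl]
  have hznew : ∀ c, a + 2 ≤ c → nz R y a u1 u2 ν z c = R := fun c h1 => by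
    unfold nz; rw [if_neg (by omega), if_neg (by omega)]
    exact (I.un c (by omega)).2
  have hRy : R - 1 - (y + 1) = R - 2 - y := by omega
  refine ⟨a + n, ns y a n s, nz R y a u1 u2 ν z, ok, ?_, ?_, ?_, ?_, ?_, ?_, ?_⟩
  · -- D2
    rw [e3', hRy]
    exact hn
  · -- D1
    intro _
    rw [e3', hRy]
    exact hD1
  · -- mono
    intro c c' hcc hc'
    by_cases h : c' < a
    · rw [hsold c' h, hsold c (by omega)]
      exact I.mono c c' hcc h
    · rw [hsnew c' (by omega) hc']
      exact (ok.st c (by omega)).1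
  · -- bat
    intro t ht1 ht2
    rcases Nat.lt_succ_iff_lt_or_eq.1 (Nat.lt_succ_of_le ht2) with h | h
    · obtain ⟨c, hc, hsc⟩ := I.bat t ht1 (by omega)
      exact ⟨c, by omega, by rw [hsold c hc]; exact hsc⟩
    · exact ⟨a, by omega, by rw [hsnew a le_rfl (by omega)]; exact h.symm⟩
  · -- hz
    intro c hc hzR
    by_cases h : c < a
    · rw [hsold c h, hzold c h]
      rw [hzold c h] at hzR
      exact I.hz c h hzR
    · rw [hsnew c (by omega) hc]
      have eR : R - (y + 1) = R - 1 - y := by omega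
      by_cases h1 : c = a
      · subst h1
        rw [hza, eR]
        refine ⟨by omega, fun h2 => ?_⟩
        have := hw1 (by omega)
        omega
      · by_cases h2 : c = a + 1
        · subst h2
          rw [hza1, eR]
          refine ⟨by omega, fun h2 => ?_⟩
          have := hw2 (by omega)
          omega
        · exact absurd (hznew c (by omega)) hzR
  · -- two
    intro t
    by_cases ht : t = y + 1
    · have hsub : (range (a + n)).filter (fun c => ns y a n s c = t ∧ nz R y a u1 u2 ν z c ≠ R) ⊆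
          {a, a + 1} := by
        intro c hc
        rw [mem_filter, mem_range] at hc
        obtain ⟨hc1, hc2, hc3⟩ := hc
        rw [mem_insert, mem_singleton]
        by_cases h : c < a
        · rw [hsold c h, ht] at hc2
          have := (I.st c h).1
          omega
        · by_contra hcon
          exact hc3 (hznew c (by omega))
      refine (card_le_card hsub).trans ?_
      exact card_le_two
    · have hsub : (range (a + n)).filter (fun c => ns y a n s c = t ∧ nz R y a u1 u2 ν z c ≠ R) ⊆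
          (range a).filter (fun c => s c = t ∧ z c ≠ R) := by
        intro c hc
        rw [mem_filter, mem_range] at hc
        obtain ⟨hc1, hc2, hc3⟩ := hc
        by_cases h : c < a
        · rw [hsold c h] at hc2
          rw [hzold c h] at hc3
          rw [mem_filter, mem_range]
          exact ⟨h, hc2, hc3⟩
        · rw [hsnew c (by omega) hc1] at hc2
          exact absurd hc2.symm ht
      exact (card_le_card hsub).trans (I.two t)
  · -- cnt
    intro t ht1 ht2 hRt hν
    rcases Nat.lt_succ_iff_lt_or_eq.1 (Nat.lt_succ_of_le ht2) with h | h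
    · have hold := I.cnt t ht1 (by omega) hRt (fun c hc hsc =>
        hν c (by omega) (by rw [hsold c hc]; exact hsc))
      refine hold.trans (card_le_card ?_)
      intro c hc
      rw [mem_filter, mem_range] at hc ⊢
      exact ⟨by omega, by rw [hsold c hc.1]; exact hc.2⟩
    · subst h
      have hνa := hν a (by omega) (hsnew a le_rfl (by omega))
      have h4 := hG4 M S R N ν ℓ y a s z hH I.toOk (by omega) (by omega)
      have h1 := hH.h1 y (by omega) (by omega)
      have hM1 := hH.M1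
      have hsumM : ∑ i ∈ range n, g i ≤ n * M := by
        calc ∑ i ∈ range n, g i ≤ ∑ i ∈ range n, M := sum_le_sum fun i _ => hgM i
          _ = n * M := by simp
      have hgn := hgM n
      have hgn1 := hgM (n + 1)
      have h5 : M * (Lo R N ν s z (y + 1) + (26 + S) * M) ≤ M * ℓ (y + 1) := by nlinarith
      have h6 : Lo R N ν s z (y + 1) + (26 + S) * M ≤ ℓ (y + 1) :=
        Nat.le_of_mul_le_mul_left h5 (by omega)
      have h7 : (26 + S) * M < (n + 2) * M := by nlinarith
      have h8 : 26 + S < n + 2 := Nat.lt_of_mul_lt_mul_right h7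
      have hsub : Ico a (a + n) ⊆ (range (a + n)).filter (fun c => ns y a n s c = y + 1) := by
        intro c hc
        rw [mem_Ico] at hc
        rw [mem_filter, mem_range]
        exact ⟨hc.2, hsnew c hc.1 hc.2⟩
      have h9 := card_le_card hsub
      rw [Nat.card_Ico] at h9
      omega

end Pool.Agent.Helper67.SG.G10
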